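import Pool.Agent.H93.EN.Targets4

/-!
# Bright corners: cutoff functions (row CUT)
-/

namespace Pool.Agent.H67.EN

open MeasureTheory Set Metric Filter Topology Pool.Agent.H93.EN
open Pool.Agent.H93.BL hiding T_B1 T_B2 T_B3 T_SB T_SC
open scoped ContDiff

namespace CUT

lemma tbd : ∃ M > (0 : ℝ), ∀ t, |deriv Real.smoothTransition t| ≤ M := by
  have hc : Continuous (deriv Real.smoothTransition) :=
    (Real.smoothTransition.contDiff (n := 1)).continuous_deriv le_rfl
  obtain ⟨M, hM⟩ := (isCompact_Icc (a := (0 : ℝ)) (b := 1)).exists_bound_of_continuousOn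
    hc.continuousOn
  refine ⟨max M 1, lt_of_lt_of_le one_pos (le_max_right _ _), fun t => ?_⟩
  by_cases h0 : t < 0
  · have : Real.smoothTransition =ᶠ[𝓝 t] fun _ => 0 := by
      filter_upwards [Iio_mem_nhds h0] with s hs
      exact Real.smoothTransition.zero_of_nonpos (le_of_lt hs)
    rw [this.deriv_eq]
    simp
  by_cases h1 : 1 < t
  · have : Real.smoothTransition =ᶠ[𝓝 t] fun _ => 1 := by
      filter_upwards [Ioi_mem_nhds h1] with s hs
      exact Real.smoothTransition.one_of_one_le (le_of_lt hs)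
    rw [this.deriv_eq]
    simp
  · push Not at h0 h1
    exact (hM t ⟨h0, h1⟩).trans (le_max_left _ _)

/-- a factor of the cutoff function -/
noncomputable def g (R : ℝ) (b x : ℂ) : ℝ :=
  Real.smoothTransition ((‖x - b‖ ^ 2 / R ^ 2 - 1) / 3)

lemma g_nonneg (R : ℝ) (b x : ℂ) : 0 ≤ g R b x := Real.smoothTransition.nonneg _

lemma g_le_one (R : ℝ) (b x : ℂ) : g R b x ≤ 1 := Real.smoothTransition.le_one _

lemma g_contDiff (R : ℝ) (b : ℂ) : ContDiff ℝ ∞ (g R b) := by
  unfold g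
  refine Real.smoothTransition.contDiff.comp ?_
  exact ((((contDiff_id.sub contDiff_const).norm_sq ℝ).div_const _).sub
    contDiff_const).div_const _

lemma g_zero {R : ℝ} (hR : 0 < R) {b x : ℂ} (h : ‖x - b‖ ≤ R) : g R b x = 0 := by
  unfold g
  refine Real.smoothTransition.zero_of_nonpos ?_
  have h1 : ‖x - b‖ ^ 2 / R ^ 2 ≤ 1 := by
    rw [div_le_one (by positivity)]
    exact pow_le_pow_left₀ (norm_nonneg _) h 2
  linarith

lemma g_one {R : ℝ} (hR : 0 < R) {b x : ℂ} (h : 2 * R ≤ ‖x - b‖) : g R b x = 1 := by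
  unfold g
  refine Real.smoothTransition.one_of_one_le ?_
  have h1 : 4 ≤ ‖x - b‖ ^ 2 / R ^ 2 := by
    rw [le_div_iff₀ (by positivity)]
    have := pow_le_pow_left₀ (by positivity : (0 : ℝ) ≤ 2 * R) h 2
    linarith
  linarith

lemma g_fderiv {M : ℝ} (hM : ∀ t, |deriv Real.smoothTransition t| ≤ M) {R : ℝ} (hR : 0 < R)
    (b x : ℂ) : ‖fderiv ℝ (g R b) x‖ ≤ 2 * M / R ∧
      (fderiv ℝ (g R b) x ≠ 0 → ‖x - b‖ ≤ 2 * R) := by
  have hM0 : 0 ≤ M := (abs_nonneg _).trans (hM 0)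
  by_cases h : ‖x - b‖ ≤ 2 * R
  · refine ⟨?_, fun _ => h⟩
    have h1 : HasFDerivAt (fun y : ℂ => (‖y - b‖ ^ 2 / R ^ 2 - 1) / 3)
        ((1 / (3 * R ^ 2)) • ((2 : ℝ) • (innerSL ℝ (x - b)))) x := by
      have h2 : HasFDerivAt (fun y : ℂ => ‖y - b‖ ^ 2) ((2 : ℝ) • (innerSL ℝ (x - b))) x := by
        have h3 := (hasStrictFDerivAt_norm_sq (x - b)).hasFDerivAt
        have h4 : HasFDerivAt (fun y : ℂ => y - b) (ContinuousLinearMap.id ℝ ℂ) x :=
          (hasFDerivAt_id x).sub_const b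
        have h5 := h3.comp x h4
        refine h5.congr_fderiv ?_
        ext v
        simp
      have h6 := ((h2.const_smul (1 / (3 * R ^ 2))).sub_const (1 / 3))
      refine (h6.congr_of_eventuallyEq ?_)
      refine Eventually.of_forall fun y => ?_
      simp only [Pi.smul_apply, smul_eq_mul]
      field_simp
    have h2 : HasFDerivAt (g R b) ((deriv Real.smoothTransition ((‖x - b‖ ^ 2 / R ^ 2 - 1) / 3)) •
        ((1 / (3 * R ^ 2)) • ((2 : ℝ) • (innerSL ℝ (x - b))))) x := by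
      have h3 : HasDerivAt Real.smoothTransition
          (deriv Real.smoothTransition ((‖x - b‖ ^ 2 / R ^ 2 - 1) / 3))
          ((‖x - b‖ ^ 2 / R ^ 2 - 1) / 3) :=
        ((Real.smoothTransition.contDiff (n := 1)).differentiable one_ne_zero _).hasDerivAt
      exact h3.comp_hasFDerivAt x h1
    rw [h2.fderiv, norm_smul, norm_smul, norm_smul, innerSL_apply_norm, Real.norm_eq_abs,
      Real.norm_eq_abs, Real.norm_eq_abs, abs_of_pos (by positivity : (0 : ℝ) < 1 / (3 * R ^ 2)),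
      abs_of_pos (by norm_num : (0 : ℝ) < 2)]
    calc |deriv Real.smoothTransition ((‖x - b‖ ^ 2 / R ^ 2 - 1) / 3)| *
          (1 / (3 * R ^ 2) * (2 * ‖x - b‖))
        ≤ M * (1 / (3 * R ^ 2) * (2 * (2 * R))) := by
          gcongr
          exact hM _
      _ = (4 / 3) * (M / R) := by
          field_simp
          ring
      _ ≤ 2 * (M / R) := by
          have : 0 ≤ M / R := by positivity
          linarith
      _ = 2 * M / R := by ring
  · push Not at h
    have h1 : g R b =ᶠ[𝓝 x] fun _ => 1 := by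
      have h2 : {y : ℂ | 2 * R < ‖y - b‖} ∈ 𝓝 x := by
        refine (isOpen_lt continuous_const ?_).mem_nhds h
        fun_prop
      filter_upwards [h2] with y hy
      exact g_one hR (le_of_lt hy)
    have h3 : fderiv ℝ (g R b) x = 0 := by
      rw [h1.fderiv_eq]
      simp
    rw [h3]
    refine ⟨?_, fun h => absurd rfl h⟩
    rw [norm_zero]
    positivity

lemma prod_fderiv (s : Finset ℂ) (f : ℂ → ℂ → ℝ) (hd : ∀ b, Differentiable ℝ (f b))
    (h0 : ∀ b x, 0 ≤ f b x) (h1 : ∀ b x, f b x ≤ 1) (x : ℂ) :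
    Differentiable ℝ (fun y => ∏ b ∈ s, f b y) ∧
    ‖fderiv ℝ (fun y => ∏ b ∈ s, f b y) x‖ ≤ ∑ b ∈ s, ‖fderiv ℝ (f b) x‖ := by
  classical
  induction s using Finset.induction_on with
  | empty => simp
  | insert a s ha ih =>
    have e : (fun y => ∏ b ∈ insert a s, f b y) = fun y => f a y * ∏ b ∈ s, f b y := by
      funext y
      rw [Finset.prod_insert ha]
    rw [e, Finset.sum_insert ha]
    refine ⟨(hd a).mul ih.1, ?_⟩
    rw [fderiv_fun_mul (hd a x) (ih.1 x)]
    refine (norm_add_le _ _).trans ?_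
    rw [norm_smul, norm_smul, Real.norm_eq_abs, Real.norm_eq_abs]
    have h2 : |f a x| ≤ 1 := by
      rw [abs_of_nonneg (h0 a x)]
      exact h1 a x
    have h3 : |∏ b ∈ s, f b x| ≤ 1 := by
      rw [abs_of_nonneg (Finset.prod_nonneg fun b _ => h0 b x)]
      exact Finset.prod_le_one (fun b _ => h0 b x) fun b _ => h1 b x
    have h4 := ih.2
    have h5 : |f a x| * ‖fderiv ℝ (fun y => ∏ b ∈ s, f b y) x‖ ≤
        1 * ‖fderiv ℝ (fun y => ∏ b ∈ s, f b y) x‖ :=
      mul_le_mul_of_nonneg_right h2 (norm_nonneg _)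
    have h6 : |∏ b ∈ s, f b x| * ‖fderiv ℝ (f a) x‖ ≤ 1 * ‖fderiv ℝ (f a) x‖ :=
      mul_le_mul_of_nonneg_right h3 (norm_nonneg _)
    linarith

end CUT

open CUT in
theorem cut : T_CUT := by
  classical
  intro B Ω hB hBne hΩ _
  obtain ⟨M, hM0, hM⟩ := tbd
  obtain ⟨ρ, hρ0, hρ⟩ : ∃ ρ > (0 : ℝ), Ω ⊆ ball 0 ρ := by
    obtain ⟨ρ, hρ⟩ := hΩ.subset_ball (0 : ℂ)
    exact ⟨max ρ 1, lt_of_lt_of_le one_pos (le_max_right _ _),
      hρ.trans (ball_subset_ball (le_max_left _ _))⟩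
  let β : ContDiffBump (0 : ℂ) := ⟨ρ, ρ + 1, hρ0, by linarith⟩
  have hcard : 0 < (hB.toFinset.card : ℝ) := by
    have : hB.toFinset.Nonempty := by
      rwa [Set.Finite.toFinset_nonempty]
    exact_mod_cast this.card_pos
  refine ⟨hB.toFinset.card * (2 * M), by positivity, 1, one_pos, fun R hR => ?_⟩
  have hR0 : 0 < R := hR.1
  let η : ℂ → ℝ := fun x => β x * ∏ b ∈ hB.toFinset, g R b x
  have hβ : ∀ x ∈ Ω, η =ᶠ[𝓝 x] fun y => ∏ b ∈ hB.toFinset, g R b y := by
    intro x hx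
    filter_upwards [isOpen_ball.mem_nhds (hρ hx)] with y hy
    have : β y = 1 := β.one_of_mem_closedBall (ball_subset_closedBall hy)
    simp only [η, this, one_mul]
  have hpd := prod_fderiv hB.toFinset (g R) (fun b => (g_contDiff R b).differentiable (by simp))
    (g_nonneg R) (g_le_one R)
  have htp : ∀ x ∈ tsupport η, R ≤ infDist x B := by
    have hcl : IsClosed {x : ℂ | R ≤ infDist x B} :=
      isClosed_le continuous_const (continuous_infDist_pt B)
    refine closure_minimal (fun x hx => ?_) hcl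
    change R ≤ infDist x B
    rw [le_infDist hBne]
    intro b hb
    by_contra h
    push Not at h
    refine hx ?_
    have : g R b x = 0 := g_zero hR0 (by rw [← dist_eq_norm]; exact h.le)
    simp only [η]
    rw [Finset.prod_eq_zero (hB.mem_toFinset.2 hb) this, mul_zero]
  refine ⟨η, ?_, ?_, ?_, htp, ?_, ?_, ?_⟩
  · refine (β.contDiff (n := 2)).mul ?_
    exact contDiff_prod fun b _ => (g_contDiff R b).of_le (by exact_mod_cast le_top)
  · exact β.hasCompactSupport.mul_right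
  · intro x
    have h0 : 0 ≤ ∏ b ∈ hB.toFinset, g R b x := Finset.prod_nonneg fun b _ => g_nonneg R b x
    have h1 : ∏ b ∈ hB.toFinset, g R b x ≤ 1 :=
      Finset.prod_le_one (fun b _ => g_nonneg R b x) fun b _ => g_le_one R b x
    exact ⟨mul_nonneg β.nonneg h0, mul_le_one₀ β.le_one h0 h1⟩
  · intro x hx h
    rw [(hβ x hx).eq_of_nhds]
    refine Finset.prod_eq_one fun b hb => g_one hR0 ?_
    rw [← dist_eq_norm]
    exact h.trans (infDist_le_dist_of_mem (hB.mem_toFinset.1 hb))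
  · intro x hx
    rw [(hβ x hx).fderiv_eq]
    refine (hpd x).2.trans ?_
    refine (Finset.sum_le_card_nsmul _ _ (2 * M / R) fun b _ => (g_fderiv hM hR0 b x).1).trans ?_
    rw [nsmul_eq_mul]
    exact le_of_eq (by ring)
  · intro x hx h
    have h1 : x ∈ tsupport η := support_fderiv_subset ℝ h
    refine ⟨htp x h1, ?_⟩
    rw [(hβ x hx).fderiv_eq] at h
    have h2 : 0 < ∑ b ∈ hB.toFinset, ‖fderiv ℝ (g R b) x‖ :=
      lt_of_lt_of_le (norm_pos_iff.2 h) (hpd x).2
    obtain ⟨b, hb, hb'⟩ := Finset.exists_ne_zero_of_sum_ne_zero h2.ne'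
    have h3 : fderiv ℝ (g R b) x ≠ 0 := fun h => hb' (by rw [h, norm_zero])
    have h4 := (g_fderiv hM hR0 b x).2 h3
    refine (infDist_le_dist_of_mem (hB.mem_toFinset.1 hb)).trans ?_
    rwa [dist_eq_norm]

end Pool.Agent.H67.EN
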