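import Pool.Agent.H93.EN.Targets4

/-!
# Bright corners: the Green identity (row GRN)
-/

namespace Pool.Agent.H67.EN

open MeasureTheory Set Metric Filter Topology Pool.Agent.H93.EN
open Pool.Agent.H93.BL hiding T_B1 T_B2 T_B3 T_SB T_SC
open scoped ContDiff

namespace GRN

variable {ι : Type}

lemma grn_zero (X : ℂ → ℂ → ℂ → ℝ) (δ : ℝ) (k : ℤ) {η : ℂ → ℝ} {x : ℂ} (h : x ∉ tsupport η) :
    grn X δ k η x = 0 := by
  unfold grn
  rw [fderiv_of_notMem_tsupport ℝ h]
  simp

lemma grn_sum (X : ℂ → ℂ → ℂ → ℝ) (δ : ℝ) (k : ℤ) {n : ℕ} {η : ℂ → ℝ} {g : Fin n → ℂ → ℝ}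
    (hg : ∀ i, ContDiff ℝ 2 (g i)) (hs : ∀ x, η x = ∑ i, g i x) (x : ℂ) :
    grn X δ k η x = ∑ i, grn X δ k (g i) x := by
  have e : η = fun y => ∑ i, g i y := funext hs
  have h1 : fderiv ℝ η x = ∑ i, fderiv ℝ (g i) x := by
    rw [e]
    exact fderiv_fun_sum fun i _ => (hg i).differentiable (by simp) x
  unfold grn
  rw [h1, ← Complex.im_sum]
  congr 1
  rw [← Finset.mul_sum]
  congr 1
  rw [Finset.sum_sub_distrib, ← Finset.sum_mul, ← Finset.sum_mul]
  simp

/-- integrability of functions which vanish outside of the set where mollification is possible -/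
lemma intOn {E : Type} [NormedAddCommGroup E] {S Ω : Set ℂ} (hS : MeasurableSet S)
    (hΩ : MeasurableSet Ω) {f : ℂ → E} (hf : IntegrableOn f S) (h0 : ∀ x ∈ Ω, x ∉ S → f x = 0) :
    IntegrableOn f Ω := by
  have h1 : IntegrableOn (S.indicator f) Ω := ((integrable_indicator_iff hS).2 hf).integrableOn
  refine h1.congr_fun (fun x hx => ?_) hΩ
  by_cases h : x ∈ S
  · rw [indicator_of_mem h]
  · rw [indicator_of_notMem h, h0 x hx h]

lemma bdd_of {f : ℂ → ℝ} (hf : Continuous f) (hc : HasCompactSupport f) : ∃ C, ∀ x, ‖f x‖ ≤ C :=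
  hc.exists_bound_of_continuous hf

lemma vert_notMem (D : Dat ι) {δ : ℝ} (hδ : 0 < δ) {v : ℂ} (h : 9 * δ < D.κ * D.rho v) :
    v ∉ D.B := by
  intro hv
  have : D.rho v = 0 := infDist_zero_of_mem hv
  rw [this] at h
  linarith

end GRN

open GRN in
theorem grnT (h1 : T_GI) (h2 : T_GS) (h3 : T_PU) (h4 : T_INT) (h5 : Pool.Agent.H93.EN.T_SB)
    (h6 : T_SM) : T_GRN := by
  intro ι _ D δ hδ k η hη hηc hηs
  obtain ⟨hΩm, _, _, _, _, _, hint⟩ := h4 ι D
  obtain ⟨hop, _, _, _, hk⟩ := h6 ι D δ hδ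
  have hSm : MeasurableSet (D.OM δ) := hop.measurableSet
  have hint' := hint δ hδ (D.OM δ) subset_rfl hSm
  have hh : ∀ m : ℤ, IntegrableOn (D.h δ m) (D.OM δ) := fun m =>
    (integrable_norm_iff ((hk m).2.1.aestronglyMeasurable hSm)).1 (hint'.2 m).1
  have key : ∀ x ∈ tsupport η, ∃ r > (0 : ℝ), ∀ g : ℂ → ℝ, ContDiff ℝ 2 g →
      tsupport g ⊆ ball x r → GreenId D.P.Ω D.X δ k g := by
    intro x hx
    have h9 := hηs x hx
    by_cases hxΩ : x ∈ D.P.Ω
    · exact h1 ι D δ hδ x hxΩ h9 k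
    by_cases hxc : x ∈ closure D.P.Ω
    · have hfr : x ∈ frontier D.P.Ω := by
        rw [frontier, D.P.isOpen.interior_eq]
        exact ⟨hxc, hxΩ⟩
      rw [D.P.frontier_eq, mem_iUnion] at hfr
      obtain ⟨i, hi⟩ := hfr
      by_cases hp : D.P.p i = x
      · exact D.vert x ⟨i, Or.inl hp.symm⟩ (vert_notMem D hδ h9) δ hδ h9 k
      by_cases hq : D.P.q i = x
      · exact D.vert x ⟨i, Or.inr hq.symm⟩ (vert_notMem D hδ h9) δ hδ h9 k
      exact h2 ι D δ hδ i x (mem_openSegment_of_ne_left_right hp hq hi) h9 k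
    · obtain ⟨r, hr0, hr⟩ := Metric.isOpen_iff.1 isClosed_closure.isOpen_compl x hxc
      refine ⟨r, hr0, fun g _ hgs => ?_⟩
      have hz : ∀ y ∈ D.P.Ω, y ∉ tsupport g := fun y hy hyg =>
        hr (hgs hyg) (subset_closure hy)
      unfold GreenId
      rw [setIntegral_eq_zero_of_forall_eq_zero, setIntegral_eq_zero_of_forall_eq_zero, mul_zero]
      · exact fun y hy => grn_zero D.X δ k (hz y hy)
      · intro y hy
        rw [image_eq_zero_of_notMem_tsupport (hz y hy), zero_mul]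
  choose! r hr using key
  obtain ⟨n, c, g, hg, hsum⟩ := h3 η r hη hηc fun x hx => (hr x hx).1
  have hG : ∀ i, GreenId D.P.Ω D.X δ k (g i) := fun i =>
    (hr (c i) (hg i).1).2 (g i) (hg i).2.1 (hg i).2.2.1
  have hgc : ∀ i, HasCompactSupport (g i) := fun i =>
    hηc.of_isClosed_subset (isClosed_tsupport _) (hg i).2.2.2
  -- points of the table outside of `OM δ` are not in the supports
  have hout : ∀ x ∈ D.P.Ω, x ∉ D.OM δ → ∀ i, x ∉ tsupport (g i) := by
    intro x hx hxS i hxi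
    refine hxS ⟨hx, ?_⟩
    have := hηs x ((hg i).2.2.2 hxi)
    linarith
  have hI1 : ∀ i, IntegrableOn
      (fun x => g i x * ((‖hX D.X δ (k + 1) x‖ ^ 2 - ‖hX D.X δ (k - 1) x‖ ^ 2) / 4)) D.P.Ω := by
    intro i
    refine intOn hSm hΩm ?_ fun x hx hxS => ?_
    · obtain ⟨C, hC⟩ := bdd_of (hg i).2.1.continuous (hgc i)
      have h7 : IntegrableOn (fun x => (‖hX D.X δ (k + 1) x‖ ^ 2 - ‖hX D.X δ (k - 1) x‖ ^ 2) / 4)
          (D.OM δ) := ((hint'.2 (k + 1)).2.1.sub (hint'.2 (k - 1)).2.1).div_const 4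
      exact Integrable.bdd_mul (c := C) h7 (hg i).2.1.continuous.aestronglyMeasurable
        (Eventually.of_forall hC)
    · rw [image_eq_zero_of_notMem_tsupport (hout x hx hxS i), zero_mul]
  have hI2 : ∀ i, IntegrableOn (fun x => grn D.X δ k (g i) x) D.P.Ω := by
    intro i
    refine intOn hSm hΩm ?_ fun x hx hxS => grn_zero D.X δ k (hout x hx hxS i)
    have hd : ∀ v : ℂ, Continuous (fun x => fderiv ℝ (g i) x v) ∧
        ∃ C, ∀ x, ‖fderiv ℝ (g i) x v‖ ≤ C := by
      intro v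
      have hcd : Continuous (fderiv ℝ (g i)) := (hg i).2.1.continuous_fderiv (by simp)
      have hcv : Continuous (fun x => fderiv ℝ (g i) x v) := hcd.clm_apply continuous_const
      refine ⟨hcv, ?_⟩
      have hcs : HasCompactSupport (fun x => fderiv ℝ (g i) x v) :=
        (hgc i).fderiv_apply ℝ v
      exact bdd_of hcv hcs
    have hterm : ∀ (v : ℂ) (f : ℂ → ℂ), IntegrableOn f (D.OM δ) →
        IntegrableOn (fun x => (starRingEnd ℂ) (uX D.X δ k x) *
          ((fderiv ℝ (g i) x v : ℂ) * f x)) (D.OM δ) := by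
      intro v f hf
      obtain ⟨hcv, C, hC⟩ := hd v
      have h8 : IntegrableOn (fun x => (fderiv ℝ (g i) x v : ℂ) * f x) (D.OM δ) := by
        refine Integrable.bdd_mul (c := C) hf ?_ (Eventually.of_forall fun x => ?_)
        · exact (Complex.continuous_ofReal.comp hcv).aestronglyMeasurable
        · rw [Complex.norm_real]
          exact hC x
      refine Integrable.bdd_mul (c := 1) h8 ?_ (Eventually.of_forall fun x => ?_)
      · exact ((Complex.continuous_conj.comp_continuousOn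
          (hk k).1.continuousOn).aestronglyMeasurable hSm :)
      · rw [RCLike.norm_conj]
        exact (hk k).2.2.1 x
    have ha : IntegrableOn (fun x => (hX D.X δ (k + 1) x + hX D.X δ (k - 1) x) / 2) (D.OM δ) :=
      ((hh (k + 1)).add (hh (k - 1))).div_const 2
    have hb : IntegrableOn (fun x => Complex.I / 2 * (hX D.X δ (k - 1) x - hX D.X δ (k + 1) x))
      (D.OM δ) := ((hh (k - 1)).sub (hh (k + 1))).const_mul _
    have hc := ((hterm 1 _ ha).sub (hterm Complex.I _ hb)).im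
    refine hc.congr (Eventually.of_forall fun x => ?_)
    unfold grn
    simp only [Pi.sub_apply, RCLike.im_eq_complex_im]
    congr 1
    ring
  unfold GreenId
  have e1 : ∫ x in D.P.Ω, η x * ((‖hX D.X δ (k + 1) x‖ ^ 2 - ‖hX D.X δ (k - 1) x‖ ^ 2) / 4) =
      ∑ i, ∫ x in D.P.Ω,
        g i x * ((‖hX D.X δ (k + 1) x‖ ^ 2 - ‖hX D.X δ (k - 1) x‖ ^ 2) / 4) := by
    rw [← integral_finsetSum _ fun i _ => hI1 i]
    refine integral_congr_ae (Eventually.of_forall fun x => ?_)
    simp only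
    rw [hsum x, Finset.sum_mul]
  have e2 : ∫ x in D.P.Ω, grn D.X δ k η x = ∑ i, ∫ x in D.P.Ω, grn D.X δ k (g i) x := by
    rw [← integral_finsetSum _ fun i _ => hI2 i]
    refine integral_congr_ae (Eventually.of_forall fun x => ?_)
    exact grn_sum D.X δ k (fun i => (hg i).2.1) hsum x
  rw [e1, e2, Finset.mul_sum]
  exact Finset.sum_congr rfl fun i _ => hG i

end Pool.Agent.H67.EN
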